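import Pool.Agent.H34.GU.Targets1
import Pool.Agent.H32.GZ.ABL

/-!
MP_52e316_nt, universal family of `GL_m`, row ABU: half of the Mellin integral in terms of the
partial sums.
-/

set_option autoImplicit false

namespace Pool.Agent.H32.GU

open MeasureTheory Pool.Agent.H34.GM Pool.Agent.H34.GZ Pool.Agent.H34.GU Pool.Agent.H32.GZ

theorem abu_core (m : ℕ) (κ : ℝ) (hm : 1 ≤ m) (hκ : 1 ≤ κ) (ε J M : ℝ) (hε : 0 < ε) (hJ : 0 ≤ J)
    (hM : 0 ≤ M) (K : ℕ) (hK : (m : ℝ) ^ 2 / 2 + m * J + 1 ≤ K) (lam : ℕ → ℂ) (th : ℝ → ℝ)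
    (hth : ∀ r : ℝ, 0 < r → ENNReal.ofReal (th r) ≤ ∫⁻ y in Set.Ioi (1 : ℝ), ENNReal.ofReal
      (‖SF m 1 lam y‖ * ((m : ℝ)⁻¹ * y⁻¹ * (M * min ((r * y ^ (-(1 / (m : ℝ)))) ^ K)
        ((r * y ^ (-(1 / (m : ℝ)))) ^ ((m : ℝ) ^ 2 / 2 + ε)))))) (hth0 : ∀ r, 0 ≤ th r) :
    ∫⁻ r in Set.Ioc (0 : ℝ) (Real.sqrt κ), ENNReal.ofReal
        (th r * r ^ (-((m : ℝ) ^ 2 / 2) - 1)) ≤
      ENNReal.ofReal ((1 + 1 / ε) * M * κ ^ (ε / 2)) *
        ∫⁻ y in Set.Ioi (1 : ℝ), ENNReal.ofReal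
          (‖SF m 1 lam y‖ * y ^ (-((m : ℝ) / 2) - 1) * wK m κ J y) := by
  have hm1 : (1 : ℝ) ≤ m := by exact_mod_cast hm
  have hm0 : (0 : ℝ) < m := by linarith
  have hq1 : 1 ≤ κ := hκ
  have hq0 : 0 < κ := by linarith
  set b : ℝ := (m : ℝ) ^ 2 / 2 with hb
  have hb0 : 0 ≤ b := by positivity
  have hQ1 : 1 ≤ Real.sqrt κ := Real.one_le_sqrt.2 hq1
  have hSF := measurable_SF m 1 lam
  set G : ℝ → ENNReal := fun y => ENNReal.ofReal (‖SF m 1 lam y‖ * ((m : ℝ)⁻¹ * y⁻¹ * M)) with hG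
  set H : ℝ → ℝ → ENNReal := fun r y => ENNReal.ofReal (min ((r * y ^ (-(1 / (m : ℝ)))) ^ K)
    ((r * y ^ (-(1 / (m : ℝ)))) ^ (b + ε)) * r ^ (-b - 1)) with hH
  have hGm : Measurable G := by
    refine ENNReal.measurable_ofReal.comp (hSF.norm.mul ?_)
    exact (measurable_const.mul measurable_inv).mul measurable_const
  have hHm : Measurable (fun pr : ℝ × ℝ => H pr.1 pr.2) := by
    refine ENNReal.measurable_ofReal.comp ?_
    have h1 : Measurable (fun pr : ℝ × ℝ => pr.1 * pr.2 ^ (-(1 / (m : ℝ)))) :=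
      measurable_fst.mul (measurable_snd.pow_const _)
    exact ((h1.pow_const K).min (h1.pow_const _)).mul (measurable_fst.pow_const _)
  have hstep1 : ∫⁻ r in Set.Ioc (0 : ℝ) (Real.sqrt κ), ENNReal.ofReal
      (th r * r ^ (-b - 1)) ≤
      ∫⁻ r in Set.Ioc (0 : ℝ) (Real.sqrt κ), ∫⁻ y in Set.Ioi (1 : ℝ), G y * H r y := by
    refine setLIntegral_mono' measurableSet_Ioc fun r hr => ?_
    rw [ENNReal.ofReal_mul (hth0 r)]
    refine (mul_le_mul' (hth r hr.1) le_rfl).trans ?_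
    rw [← lintegral_mul_const' _ _ ENNReal.ofReal_ne_top]
    refine setLIntegral_mono' measurableSet_Ioi fun y hy => ?_
    have hy1 : (1 : ℝ) < y := hy
    have hy0 : 0 < y := by linarith
    have hz : 0 < y ^ (-(1 / (m : ℝ))) := Real.rpow_pos_of_pos hy0 _
    have hmin : 0 ≤ min ((r * y ^ (-(1 / (m : ℝ)))) ^ K)
        ((r * y ^ (-(1 / (m : ℝ)))) ^ (b + ε)) := by
      have := hr.1
      apply le_min <;> positivity
    rw [hG, hH]
    simp only
    rw [← ENNReal.ofReal_mul (by positivity), ← ENNReal.ofReal_mul (by positivity)]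
    apply ENNReal.ofReal_le_ofReal
    apply le_of_eq
    ring
  refine hstep1.trans ?_
  rw [lintegral_lintegral_swap]
  swap
  · refine Measurable.aemeasurable ?_
    exact (hGm.comp measurable_snd).mul hHm
  calc ∫⁻ y in Set.Ioi (1 : ℝ), ∫⁻ r in Set.Ioc (0 : ℝ) (Real.sqrt κ), G y * H r y
      = ∫⁻ y in Set.Ioi (1 : ℝ), G y * ∫⁻ r in Set.Ioc (0 : ℝ) (Real.sqrt κ), H r y := by
        refine lintegral_congr fun y => ?_
        rw [lintegral_const_mul' _ _ ENNReal.ofReal_ne_top]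
    _ ≤ ∫⁻ y in Set.Ioi (1 : ℝ), ENNReal.ofReal ((1 + 1 / ε) * M * κ ^ (ε / 2)) *
          ENNReal.ofReal (‖SF m 1 lam y‖ * y ^ (-((m : ℝ) / 2) - 1) * wK m κ J y) := by
        refine setLIntegral_mono' measurableSet_Ioi fun y hy => ?_
        have hy1 : (1 : ℝ) < y := hy
        have hy0 : 0 < y := by linarith
        set z : ℝ := y ^ (-(1 / (m : ℝ))) with hz
        have hz0 : 0 < z := Real.rpow_pos_of_pos hy0 _
        have hz1 : z ≤ 1 := Real.rpow_le_one_of_one_le_of_nonpos hy1.le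
          (by
            have : 0 < 1 / (m : ℝ) := by positivity
            linarith)
        have h1 := inner_bound b ε z (Real.sqrt κ) (m * J) K hε hz0 hz1 hQ1 (by positivity)
          hK
        refine (mul_le_mul' le_rfl h1).trans ?_
        rw [hG]
        simp only
        have hzb : z ^ b = y ^ (-((m : ℝ) / 2)) := by
          rw [hz, ← Real.rpow_mul hy0.le]
          congr 1
          rw [hb]
          field_simp
        have hQe : Real.sqrt κ ^ ε = κ ^ (ε / 2) := by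
          rw [Real.sqrt_eq_rpow, ← Real.rpow_mul hq0.le]
          congr 1
          ring
        have hw : (Real.sqrt κ * z) ^ ((m : ℝ) * J) = (κ ^ ((m : ℝ) / 2) / y) ^ J := by
          rw [Real.rpow_mul (by positivity)]
          congr 1
          rw [Real.mul_rpow (Real.sqrt_nonneg _) hz0.le, Real.sqrt_eq_rpow,
            ← Real.rpow_mul hq0.le, hz, ← Real.rpow_mul hy0.le]
          have e1 : 1 / 2 * (m : ℝ) = (m : ℝ) / 2 := by ring
          have e2 : -(1 / (m : ℝ)) * (m : ℝ) = -1 := by field_simp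
          rw [e1, e2, Real.rpow_neg_one]
          rfl
        have hwJ : min 1 ((Real.sqrt κ * z) ^ ((m : ℝ) * J)) = wK m κ J y := by
          rw [hw]
          rfl
        have hwJ0 : 0 ≤ wK m κ J y := by
          unfold wK
          apply le_min
          · exact zero_le_one
          · positivity
        rw [hwJ, hzb, hQe, ← ENNReal.ofReal_mul (by positivity),
          ← ENNReal.ofReal_mul (by positivity)]
        apply ENNReal.ofReal_le_ofReal
        have e3 : y ^ (-((m : ℝ) / 2) - 1) = y⁻¹ * y ^ (-((m : ℝ) / 2)) := by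
          rw [Real.rpow_sub hy0, Real.rpow_one]
          field_simp
        rw [e3]
        have hmi : (m : ℝ)⁻¹ ≤ 1 := inv_le_one_of_one_le₀ hm1
        calc ‖SF m 1 lam y‖ * ((m : ℝ)⁻¹ * y⁻¹ * M) * ((1 + 1 / ε) * κ ^ (ε / 2) *
              (y ^ (-((m : ℝ) / 2)) * wK m κ J y))
            = (m : ℝ)⁻¹ * ((1 + 1 / ε) * M * κ ^ (ε / 2) *
              (‖SF m 1 lam y‖ * (y⁻¹ * y ^ (-((m : ℝ) / 2))) * wK m κ J y)) := by ring
          _ ≤ 1 * ((1 + 1 / ε) * M * κ ^ (ε / 2) *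
              (‖SF m 1 lam y‖ * (y⁻¹ * y ^ (-((m : ℝ) / 2))) * wK m κ J y)) := by
              apply mul_le_mul_of_nonneg_right hmi
              positivity
          _ = (1 + 1 / ε) * M * κ ^ (ε / 2) *
              (‖SF m 1 lam y‖ * (y⁻¹ * y ^ (-((m : ℝ) / 2))) * wK m κ J y) := by ring
    _ = ENNReal.ofReal ((1 + 1 / ε) * M * κ ^ (ε / 2)) *
        ∫⁻ y in Set.Ioi (1 : ℝ), ENNReal.ofReal
          (‖SF m 1 lam y‖ * y ^ (-((m : ℝ) / 2) - 1) * wK m κ J y) := by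
        rw [lintegral_const_mul' _ _ ENNReal.ofReal_ne_top]

theorem pf_ABU (hABS : T_ABS) : T_ABU := by
  intro m hm ε J hε hJ
  obtain ⟨K, hK⟩ := exists_nat_ge ((m : ℝ) ^ 2 / 2 + m * J + ε + m * (m + 2) + 1)
  have hm0 : (0 : ℝ) ≤ m := Nat.cast_nonneg m
  have hmJ : 0 ≤ (m : ℝ) * J := by positivity
  have hmm : 0 ≤ (m : ℝ) ^ 2 / 2 := by positivity
  have hm2 : 0 ≤ (m : ℝ) * (m + 2) := by positivity
  refine ⟨K, 1 + 1 / ε, by linarith, by positivity, ?_⟩
  intro κ Ψ mu lam M C1 hκ hTh hlam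
  have hK1 : m * (m + 2) < K := by
    have : ((m * (m + 2) : ℕ) : ℝ) < K := by
      push_cast
      linarith
    exact_mod_cast this
  have hM : 0 ≤ M := by
    have h1 := hTh.bd0 1 one_pos
    rw [one_pow, Real.one_rpow, min_self, mul_one] at h1
    exact (norm_nonneg _).trans h1
  exact abu_core m κ hm hκ ε J M hε hJ hM K (by linarith) lam (fun r => ‖thF 1 Ψ mu lam r‖)
    (fun r hr => hABS m 1 K Ψ mu lam M ε C1 hm hK1 hTh (fun n hn _ => hlam n hn) r hr)
    (fun r => norm_nonneg _)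

end Pool.Agent.H32.GU
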