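import Pool.Agent.H28.GU.TargetsC

/-!
Row CO of the project GU on `MP_c59857_nt`: the core of the reduction of the number of variables.
-/

set_option autoImplicit false

open Finset Filter Topology

namespace Pool.Agent.H32.GU

open Pool.Agent.H28.GU

section

variable {q : ℕ}

/-- The signed sum of four values. -/
def sg (φ : ZMod q → ZMod q) (z : Fin 4 → ZMod q) : ZMod q :=
  φ (z 0) + φ (z 1) - φ (z 2) - φ (z 3)

lemma frei_add {Z : Finset (ZMod q)} {φ : ZMod q → ZMod q} (hF : Frei Z φ)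
    (x y z : Fin 4 → ZMod q) (hx : ∀ j, x j ∈ Z) (hy : ∀ j, y j ∈ Z) (hz : ∀ j, z j ∈ Z)
    (h : (x 0 + x 1 - x 2 - x 3) + (y 0 + y 1 - y 2 - y 3) = z 0 + z 1 - z 2 - z 3) :
    sg φ x + sg φ y = sg φ z := by
  have h1 := hF ![x 0, x 1, y 0, y 1, z 2, z 3] ![x 2, x 3, y 2, y 3, z 0, z 1]
    (by intro j; fin_cases j <;> simp [hx, hy, hz]) (by intro j; fin_cases j <;> simp [hx, hy, hz])
    (by
      simp only [Fin.sum_univ_six]
      simp
      linear_combination h)
  simp only [Fin.sum_univ_six] at h1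
  simp at h1
  unfold sg
  linear_combination h1

lemma frei_eq {Z : Finset (ZMod q)} {φ : ZMod q → ZMod q} (hF : Frei Z φ)
    (x y : Fin 4 → ZMod q) (hx : ∀ j, x j ∈ Z) (hy : ∀ j, y j ∈ Z)
    (h : x 0 + x 1 - x 2 - x 3 = y 0 + y 1 - y 2 - y 3) : sg φ x = sg φ y := by
  have h1 := frei_add hF x ![x 0, x 0, x 0, x 0] y hx
    (by intro j; fin_cases j <;> simp [hx]) hy (by simp; linear_combination h)
  have h2 : sg φ ![x 0, x 0, x 0, x 0] = 0 := by
    unfold sg
    simp
  rw [h2, add_zero] at h1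
  exact h1

/-- The values of the derived homomorphism at the multiples of `v`. -/
lemma frei_mul {Z : Finset (ZMod q)} {φ : ZMod q → ZMod q} (hF : Frei Z φ) (B : ℕ) (v : ZMod q)
    (rep : ℕ → Fin 4 → ZMod q) (hm : ∀ i, i ≤ B → ∀ j, rep i j ∈ Z)
    (hv : ∀ i, i ≤ B → rep i 0 + rep i 1 - rep i 2 - rep i 3 = (i : ZMod q) * v) (z : Fin 4 → ZMod q)
    (hz : ∀ j, z j ∈ Z) (hzv : z 0 + z 1 - z 2 - z 3 = v) :
    ∀ i, 1 ≤ i → i ≤ B → (i : ZMod q) * sg φ z = sg φ (rep i) := by
  intro i hi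
  induction i, hi using Nat.le_induction with
  | base =>
    intro hB
    rw [Nat.cast_one, one_mul]
    refine frei_eq hF _ _ hz (hm 1 hB) ?_
    rw [hv 1 hB, Nat.cast_one, one_mul, hzv]
  | succ n hn ih =>
    intro hB
    have h1 := ih (by omega)
    rw [Nat.cast_add, Nat.cast_one, add_mul, one_mul, h1]
    refine frei_add hF _ _ _ (hm n (by omega)) hz (hm (n + 1) hB) ?_
    rw [hv n (by omega), hv (n + 1) hB, hzv]
    push_cast
    ring

end

theorem pf_CO (hNR : T_NR) (hBG : T_BG) (hBS : T_BS) : T_CO := by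
  intro f B k hf
  obtain ⟨k0, hk0⟩ := hBG f hf
  refine ⟨f ^ 4 / 2 / ((4 * (B + 1) : ℕ) : ℝ) ^ ((k + 2) * k0), by positivity, ?_⟩
  intro q _ W _ a p κ Q c r Z φ E D hW hQ hp hap hFr hEZ hDZ hE hD hrel
  classical
  have hq0 : (0 : ℝ) < q := by
    have := (Fact.out : q.Prime).pos
    exact_mod_cast this
  obtain ⟨-, -, -, hmul, -⟩ := hNR q
  have ha : ∀ w, a w ≠ 0 := fun w h => hQ (by rw [← hap w, h, zero_mul])
  -- the sets `Z w` are dense
  have hZc : ∀ w, f * q ≤ ((Z w).card : ℝ) := by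
    intro w
    refine hE.trans ?_
    have h1 : (E.image (fun t => c + a w * t)).card = E.card := by
      refine Finset.card_image_of_injective _ ?_
      intro s t hst
      simp only [add_right_inj] at hst
      exact mul_left_cancel₀ (ha w) hst
    rw [← h1]
    refine Nat.cast_le.2 (Finset.card_le_card ?_)
    intro x hx
    obtain ⟨t, ht, rfl⟩ := Finset.mem_image.1 hx
    exact hEZ w t ht
  obtain ⟨ΛE, hΛE, hrE⟩ := hk0 q E hE
  obtain ⟨ΛD, hΛD, hrD⟩ := hk0 q D hD
  choose ΛZ hΛZ hrZ using fun w => hk0 q (Z w) (hZc w)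
  set Λ : Finset (ZMod q) := (ΛE ∪ ΛD.image (fun l => l * Q)) ∪
    (Finset.univ : Finset W).biUnion (fun w => (ΛZ w).image (fun l => l * a w)) with hΛ
  have hΛc : Λ.card ≤ (k + 2) * k0 := by
    calc Λ.card ≤ (ΛE ∪ ΛD.image (fun l => l * Q)).card +
        ((Finset.univ : Finset W).biUnion (fun w => (ΛZ w).image (fun l => l * a w))).card :=
          Finset.card_union_le _ _
      _ ≤ (k0 + k0) + Fintype.card W * k0 := by
          refine Nat.add_le_add ?_ ?_
          · refine (Finset.card_union_le _ _).trans (Nat.add_le_add hΛE ?_)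
            exact Finset.card_image_le.trans hΛD
          · refine Finset.card_biUnion_le_card_mul _ _ _ ?_
            intro w _
            exact Finset.card_image_le.trans (hΛZ w)
      _ ≤ (k0 + k0) + k * k0 := Nat.add_le_add_left (Nat.mul_le_mul_right _ hW) _
      _ = (k + 2) * k0 := by ring
  set n : ℕ := 4 * (B + 1) with hn
  have hn0 : 0 < n := by omega
  set H := Boh Λ (1 / (n : ℝ)) with hH
  have hHc : (q : ℝ) ≤ (n : ℝ) ^ ((k + 2) * k0) * (H.card : ℝ) := by
    refine (hBS q Λ n hn0).trans ?_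
    refine mul_le_mul_of_nonneg_right ?_ (Nat.cast_nonneg _)
    refine pow_le_pow_right₀ ?_ hΛc
    exact_mod_cast hn0
  have hnle : (1 : ℝ) / n ≤ 1 / 4 := by
    rw [hn]
    push_cast
    apply one_div_le_one_div_of_le (by norm_num)
    have : (0 : ℝ) ≤ B := Nat.cast_nonneg _
    linarith
  -- membership
  have hmemH : ∀ h ∈ H, ∀ l ∈ Λ, nr (l * h) ≤ 1 / (n : ℝ) := by
    intro h hh
    rw [hH, Boh, Finset.mem_filter] at hh
    exact hh.2
  have hpos : ∀ (A : Finset (ZMod q)) (v : ZMod q), f ^ 4 / 2 * (q : ℝ) ^ 3 ≤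
      ((Finset.univ.filter (fun x : Fin 4 → ZMod q =>
        (∀ j, x j ∈ A) ∧ x 0 + x 1 - x 2 - x 3 = v)).card : ℝ) →
      ∃ x : Fin 4 → ZMod q, (∀ j, x j ∈ A) ∧ x 0 + x 1 - x 2 - x 3 = v := by
    intro A v h
    have h1 : (0 : ℝ) < f ^ 4 / 2 * (q : ℝ) ^ 3 := by positivity
    have h2 := Nat.cast_pos.1 (h1.trans_le h)
    obtain ⟨x, hx⟩ := Finset.card_pos.1 h2
    exact ⟨x, (Finset.mem_filter.1 hx).2⟩
  have hvan : ∀ h ∈ H, ∀ x : Fin 4 → ZMod q, (∀ j, x j ∈ D) → x 0 + x 1 - x 2 - x 3 = Q * h →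
      ∑ w, κ w * a w * (φ w (x 0) + φ w (x 1) - φ w (x 2) - φ w (x 3)) = 0 := by
    intro h hh x hxD hxv
    obtain ⟨t, htE, htv⟩ := hpos E h (hrE h (by
      rw [Boh, Finset.mem_filter]
      refine ⟨Finset.mem_univ _, fun l hl => (hmemH h hh l ?_).trans hnle⟩
      rw [hΛ]
      exact Finset.mem_union_left _ (Finset.mem_union_left _ hl)))
    have hw : ∀ w, a w * sg (φ w) x = Q * sg (φ w) (fun j => c + a w * t j) := by
      intro w
      have hrep : ∀ i : ℕ, ∃ z : Fin 4 → ZMod q, i ≤ B → (∀ j, z j ∈ Z w) ∧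
          z 0 + z 1 - z 2 - z 3 = (i : ZMod q) * (a w * h) := by
        intro i
        by_cases hi : i ≤ B
        · obtain ⟨z, hz, hzv⟩ := hpos (Z w) ((i : ZMod q) * (a w * h)) (hrZ w _ (by
            rw [Boh, Finset.mem_filter]
            refine ⟨Finset.mem_univ _, fun l hl => ?_⟩
            have h1 : l * ((i : ZMod q) * (a w * h)) = (i : ZMod q) * ((l * a w) * h) := by ring
            rw [h1]
            refine (hmul i _).trans ?_
            have h2 : nr ((l * a w) * h) ≤ 1 / (n : ℝ) := by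
              refine hmemH h hh _ ?_
              rw [hΛ]
              refine Finset.mem_union_right _ ?_
              rw [Finset.mem_biUnion]
              exact ⟨w, Finset.mem_univ _, Finset.mem_image_of_mem _ hl⟩
            have h3 : (i : ℝ) * nr ((l * a w) * h) ≤ (i : ℝ) * (1 / (n : ℝ)) :=
              mul_le_mul_of_nonneg_left h2 (Nat.cast_nonneg _)
            refine h3.trans ?_
            have hiB : (i : ℝ) ≤ B := by exact_mod_cast hi
            rw [hn]
            push_cast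
            rw [mul_one_div, div_le_div_iff₀ (by positivity) (by norm_num)]
            linarith))
          exact ⟨z, fun _ => ⟨hz, hzv⟩⟩
        · exact ⟨0, fun h => absurd h hi⟩
      choose rep hrep using hrep
      have h1 := frei_mul (hFr w) B (a w * h) rep (fun i hi => (hrep i hi).1)
        (fun i hi => (hrep i hi).2) (fun j => c + a w * t j) (fun j => hEZ w _ (htE j))
        (by rw [← htv]; ring) (p w) (hp w).1 (hp w).2
      have h2 : sg (φ w) x = sg (φ w) (rep (p w)) := by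
        refine frei_eq (hFr w) _ _ (fun j => hDZ w _ (hxD j)) (hrep (p w) (hp w).2).1 ?_
        rw [(hrep (p w) (hp w).2).2, hxv, ← hap w]
        ring
      rw [h2, ← h1, ← mul_assoc, hap w]
    have h3 : ∑ w, κ w * a w * (φ w (x 0) + φ w (x 1) - φ w (x 2) - φ w (x 3)) =
        Q * ((∑ w, κ w * φ w (c + a w * t 0)) + (∑ w, κ w * φ w (c + a w * t 1)) -
          (∑ w, κ w * φ w (c + a w * t 2)) - (∑ w, κ w * φ w (c + a w * t 3))) := by
      rw [← Finset.sum_add_distrib, ← Finset.sum_sub_distrib, ← Finset.sum_sub_distrib,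
        Finset.mul_sum]
      refine Finset.sum_congr rfl fun w _ => ?_
      have h4 := hw w
      unfold sg at h4
      linear_combination κ w * h4
    rw [h3, hrel _ (htE 0), hrel _ (htE 1), hrel _ (htE 2), hrel _ (htE 3)]
    ring
  -- counting
  have hcount : (H.card : ℝ) * (f ^ 4 / 2 * (q : ℝ) ^ 3) ≤
      ((Finset.univ.filter (fun x : Fin 4 → ZMod q => (∀ j, x j ∈ D) ∧
      ∑ w, κ w * a w * (φ w (x 0) + φ w (x 1) - φ w (x 2) - φ w (x 3)) = 0)).card : ℝ) := by
    have h1 : (H.card : ℝ) * (f ^ 4 / 2 * (q : ℝ) ^ 3) ≤ ∑ h ∈ H,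
        ((Finset.univ.filter (fun x : Fin 4 → ZMod q =>
        (∀ j, x j ∈ D) ∧ x 0 + x 1 - x 2 - x 3 = Q * h)).card : ℝ) := by
      rw [← nsmul_eq_mul, ← Finset.sum_const]
      refine Finset.sum_le_sum fun h hh => hrD _ ?_
      rw [Boh, Finset.mem_filter]
      refine ⟨Finset.mem_univ _, fun l hl => ?_⟩
      rw [← mul_assoc]
      refine (hmemH h hh _ ?_).trans hnle
      rw [hΛ]
      exact Finset.mem_union_left _ (Finset.mem_union_right _ (Finset.mem_image_of_mem _ hl))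
    refine h1.trans ?_
    rw [← Nat.cast_sum, ← Finset.card_biUnion]
    · refine Nat.cast_le.2 (Finset.card_le_card ?_)
      intro x hx
      obtain ⟨h, hh, hx⟩ := Finset.mem_biUnion.1 hx
      obtain ⟨-, hx1, hx2⟩ := Finset.mem_filter.1 hx
      exact Finset.mem_filter.2 ⟨Finset.mem_univ _, hx1, hvan h hh x hx1 hx2⟩
    · intro h hh h' hh' hne
      change Disjoint _ _
      rw [Finset.disjoint_left]
      intro x hx hx'
      apply hne
      have e1 := (Finset.mem_filter.1 hx).2.2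
      have e2 := (Finset.mem_filter.1 hx').2.2
      exact mul_left_cancel₀ hQ (e1.symm.trans e2)
  refine le_trans ?_ hcount
  rw [div_mul_eq_mul_div, div_le_iff₀ (by positivity)]
  calc f ^ 4 / 2 * (q : ℝ) ^ 4 = (f ^ 4 / 2 * (q : ℝ) ^ 3) * q := by ring
    _ ≤ (f ^ 4 / 2 * (q : ℝ) ^ 3) * ((n : ℝ) ^ ((k + 2) * k0) * (H.card : ℝ)) :=
        mul_le_mul_of_nonneg_left hHc (by positivity)
    _ = (H.card : ℝ) * (f ^ 4 / 2 * (q : ℝ) ^ 3) * (n : ℝ) ^ ((k + 2) * k0) := by ring

end Pool.Agent.H32.GU
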